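import Pool.Agent.L0h38.GI.All

/-!
# The isomorphism problem for graph products of finite groups and abelian groups

Finite presentations are coded by `Pres = ℕ × List Wd`, `Wd = List (ℕ × Bool)`; `PG p` is the group
of the code `p = (n, R)`: generators `x 0, ..., x (n - 1)` and the relators in `R`, where `(i, true)` is
the letter `x i`, `(i, false)` its inverse, and letters with `i ≥ n` are deleted
(`Pool.Agent.Q223.IS.Code`). `GrP Γ G` (`Pool.Agent.L0h38.GI.Defs`) is the graph product of the groups
`G v` over the graph `Γ`. `GPFA` (`Pool.Agent.L0h38.GI.Stm4`) is the class of the presentations of graph
products, over finite graphs, of groups each of which is finite or abelian (and finitely presented).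
`Solvable C` (`Pool.Agent.Q32.DP.Stm`): some partial recursive function decides isomorphism for all
pairs of presentations in `C`, whatever it does elsewhere (a promise problem, as in Q1).

Proof. Every such group is a graph product of finite directly indecomposable groups and infinite
cyclic groups. The labelled graph of such a decomposition is determined by the group: by
Bass-Serre theory every subgroup with property FA lies in a conjugate of the subgroup generated by
a clique of finite vertex groups, so an isomorphism permutes the conjugacy classes of the maximal
cliques of this kind and of their intersections; the Krull-Remak-Schmidt theorem (with finite
centres) and a count give the finite vertices; the infinite cyclic vertices are found from the action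
on the exponents, which satisfies bilinear equations at non-adjacent vertices. So non-isomorphism
has finite certificates, and a search for an isomorphism and for such a certificate decides.
-/

set_option autoImplicit false

namespace Pool.Agent.Results.MP_32d917_al.FiniteAndAbelianVertices

open Pool.Agent.L0h38.GI Pool.Agent.Q223.IS Pool.Agent.Q32.DP

/-- The isomorphism problem is solvable for graph products, over finite graphs, of finite groups and
finitely generated abelian groups. -/
theorem result : Solvable GPFA := all_UNC

end Pool.Agent.Results.MP_32d917_al.FiniteAndAbelianVertices
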