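import Pool.Agent.L0h38.GI.Final

/-!
# Graph products of groups with property FA: reduction to direct products

Finite presentations are coded by `Pres = ℕ × List Wd`, `Wd = List (ℕ × Bool)`; `PG p` is the group
of the code `p = (n, R)`: generators `x 0, ..., x (n - 1)` and the relators in `R`, where `(i, true)` is
the letter `x i`, `(i, false)` its inverse, and letters with `i ≥ n` are deleted
(`Pool.Agent.Q223.IS.Code`). `GrP Γ G` and `FA` (Serre's property FA) are defined in
`Pool.Agent.L0h38.GI.Defs`, `GPC C` (graph products over finite graphs of groups in `C` and infinite
cyclic groups) in `Pool.Agent.L0h38.GI.Stm2`; `Prods C C` (direct products of one or more groups in `C`)
and `Solvable` in `Pool.Agent.Q32.DP.Stm`. Isomorphism problems are promise problems, as in Q1.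

Proof. Merge adjacent vertices with the same star whose groups have property FA: the vertex groups
become direct products of groups in `C`, or infinite cyclic. For such a graph without adjacent
twins the labelled graph is determined by the group: by Bass-Serre theory an isomorphism permutes
the conjugacy classes of the maximal cliques of vertex groups with property FA; together with the
linear map on the exponents at the infinite cyclic vertices this gives every such vertex a signature
which the isomorphism preserves; different vertices have different signatures, and the group of a
vertex is the quotient of the group of the vertices with at least its signature by those with a larger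
one. The infinite cyclic vertices are found from the linear map. So non-isomorphism has finite
certificates.
-/

set_option autoImplicit false

namespace Pool.Agent.Results.MP_32d917_al.GraphProductsFA

open Pool.Agent.L0h38.GI Pool.Agent.Q223.IS Pool.Agent.Q32.DP

/-- Let `C` be a recursively enumerable class of finite presentations of nontrivial groups with
property FA. The isomorphism problem for the graph products, over finite graphs, of groups in `C` and
infinite cyclic groups is solvable if and only if it is solvable for the direct products of groups
in `C`. -/
theorem result (C : Pres → Prop) (hC : REPred C)
    (hF : ∀ k, C k → FA (PG k) ∧ ∃ x : PG k, x ≠ 1) :
    Solvable (GPC C) ↔ Solvable (Prods C C) := all_ALG3 C hC hF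

end Pool.Agent.Results.MP_32d917_al.GraphProductsFA
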