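import Pool.Agent.L0h38.GI.Final

/-!
# Graph products of indecomposable groups with property FA and finite centre

Finite presentations are coded by `Pres = ℕ × List Wd`, `Wd = List (ℕ × Bool)`; `PG p` is the group
of the code `p = (n, R)` (`Pool.Agent.Q223.IS.Code`). `GrP Γ G`, `FA` (Serre's property FA) and `Indec`
are defined in `Pool.Agent.L0h38.GI.Defs`, `FinC` (finite centre) in `Pool.Agent.L0h38.GI.Stm3`, `GPC C`
(graph products over finite graphs of groups in `C` and infinite cyclic groups) in
`Pool.Agent.L0h38.GI.Stm2`, `Solvable` in `Pool.Agent.Q32.DP.Stm`. Isomorphism problems are promise
problems, as in Q1.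

Proof. The labelled graph is determined by the group (`S_UN2` in `Pool.Agent.L0h38.GI.Stm3`), by
Bass-Serre theory, the Krull-Remak-Schmidt theorem for indecomposable groups with finite centre,
and a count over the maximal cliques of vertex groups with property FA. So non-isomorphism has
finite certificates.
-/

set_option autoImplicit false

namespace Pool.Agent.Results.MP_32d917_al.IndecomposableVertices

open Pool.Agent.L0h38.GI Pool.Agent.Q223.IS Pool.Agent.Q32.DP

/-- Let `C` be a recursively enumerable class of finite presentations of directly indecomposable
groups with property FA and finite centre. The isomorphism problem for the graph products, over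
finite graphs, of groups in `C` and infinite cyclic groups is solvable if and only if it is solvable
for `C`. -/
theorem result (C : Pres → Prop) (hC : REPred C)
    (hB : ∀ k, C k → FA (PG k) ∧ FinC (PG k) ∧ Indec (PG k)) :
    Solvable (GPC C) ↔ Solvable C := alg2_iff C hC hB

end Pool.Agent.Results.MP_32d917_al.IndecomposableVertices
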